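import Pool.Agent.MP_d9473e_lc.Defs
import Pool.Agent.Lib.SymForcing.Basic
import Pool.Agent.Lib.SymForcing.SymZF

-- part MP_d9473e_lc.Field
section

/-!
The internal reals of a structure as an ordered field; internal metric spaces.
-/

namespace Pool.Agent.MP_d9473e_lc

open Pool.Agent.Lib.Forcing Pool.Agent.Lib.SymForcing

universe u

variable {M : Type u} {E : M → M → Prop} {K : Fld M}

/-- The operation given by an internal graph. -/
noncomputable def Op.fn {f A B : M} (h : Op E f A B) (x y : {a // E a A}) : {b // E b B} :=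
  ⟨(h x.1 y.1 x.2 y.2).choose, (h x.1 y.1 x.2 y.2).choose_spec.1⟩

theorem Op.spec {f A B : M} (h : Op E f A B) (x y : {a // E a A}) (z : M) :
    Ap2 E f x.1 y.1 z ↔ z = (h.fn x y).1 := (h x.1 y.1 x.2 y.2).choose_spec.2 z

theorem Op.ap {f A B : M} (h : Op E f A B) (x y : {a // E a A}) :
    Ap2 E f x.1 y.1 (h.fn x y).1 := (h.spec x y _).2 rfl

theorem Op.eq {f A B : M} (h : Op E f A B) {x y : {a // E a A}} {z : {b // E b B}}
    (e : Ap2 E f x.1 y.1 z.1) : h.fn x y = z := Subtype.ext ((h.spec x y _).1 e).symm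

theorem CommMon.comm {f A e : M} (h : CommMon E f A e) (x y : {a // E a A}) :
    h.1.fn x y = h.1.fn y x := (h.1.eq (h.2.2.2.1 _ _ _ x.2 y.2 (h.1.ap x y))).symm

theorem CommMon.assoc {f A e : M} (h : CommMon E f A e) (x y z : {a // E a A}) :
    h.1.fn (h.1.fn x y) z = h.1.fn x (h.1.fn y z) :=
  (h.1.eq (h.2.2.2.2 _ _ _ _ _ _ x.2 y.2 z.2 (h.1.ap x y) (h.1.ap y z) (h.1.ap _ z))).symm

theorem CommMon.neutral {f A e : M} (h : CommMon E f A e) (x : {a // E a A}) :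
    h.1.fn ⟨e, h.2.1⟩ x = x := h.1.eq (h.2.2.1 _ x.2)

/-- The carrier of the internal reals. -/
def Car (_ : IsReals E K) : Type u := {a // E a K.R}

namespace Car

variable {h : IsReals E K}

instance : CanLift M (Car h) (fun x => x.1) (fun a => E a K.R) := ⟨fun a ha => ⟨⟨a, ha⟩, rfl⟩⟩

noncomputable instance : Add (Car h) := ⟨h.1.1.1.fn⟩
noncomputable instance : Mul (Car h) := ⟨h.1.2.1.1.fn⟩
instance : Zero (Car h) := ⟨⟨K.zero, h.1.1.2.1⟩⟩
instance : One (Car h) := ⟨⟨K.one, h.1.2.1.2.1⟩⟩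
noncomputable instance : Neg (Car h) :=
  ⟨fun x => ⟨(h.1.2.2.2.1 x.1 x.2).choose, (h.1.2.2.2.1 x.1 x.2).choose_spec.1⟩⟩
open Classical in
noncomputable instance : Inv (Car h) :=
  ⟨fun x => if e : x.1 ≠ K.zero then
    ⟨(h.1.2.2.2.2.1 x.1 x.2 e).choose, (h.1.2.2.2.2.1 x.1 x.2 e).choose_spec.1⟩ else 0⟩

theorem add_iff (x y : Car h) (z : M) : Ap2 E K.add x.1 y.1 z ↔ z = (x + y).1 := h.1.1.1.spec x y z

theorem mul_iff (x y : Car h) (z : M) : Ap2 E K.mul x.1 y.1 z ↔ z = (x * y).1 :=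
  h.1.2.1.1.spec x y z

noncomputable instance : Field (Car h) :=
  Field.ofMinimalAxioms (Car h) h.1.1.assoc h.1.1.neutral
    (fun x => h.1.1.1.eq (h.1.2.2.2.1 x.1 x.2).choose_spec.2) h.1.2.1.assoc h.1.2.1.comm
    h.1.2.1.neutral
    (fun x hx => by
      have e : x.1 ≠ K.zero := fun e => hx (Subtype.ext e)
      have e2 : x⁻¹ = (⟨(h.1.2.2.2.2.1 x.1 x.2 e).choose,
        (h.1.2.2.2.2.1 x.1 x.2 e).choose_spec.1⟩ : Car h) := dif_pos e
      rw [e2]
      exact h.1.2.1.1.eq (h.1.2.2.2.2.1 x.1 x.2 e).choose_spec.2)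
    (dif_neg fun e => e rfl)
    (fun x y z => h.1.2.1.1.eq (h.1.2.2.2.2.2 _ _ _ _ _ _ _ x.2 y.2 z.2 (h.1.1.1.ap y z)
      (h.1.2.1.1.ap x y) (h.1.2.1.1.ap x z) (h.1.1.1.ap _ _)))
    ⟨0, 1, fun e => h.1.2.2.1 (congrArg Subtype.val e)⟩

noncomputable instance : LinearOrder (Car h) where
  le x y := Ap E K.le x.1 y.1
  le_refl x := (h.2.1.1 _ _ x.2 x.2).elim id id
  le_trans x y z := h.2.1.2.2.1 _ _ _ x.2 y.2 z.2
  le_antisymm x y h1 h2 := Subtype.ext (h.2.1.2.1 _ _ x.2 y.2 h1 h2)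
  le_total x y := h.2.1.1 _ _ x.2 y.2
  toDecidableLE := Classical.decRel _

theorem le_iff (x y : Car h) : Ap E K.le x.1 y.1 ↔ x ≤ y := Iff.rfl

theorem val_eq (x y : Car h) : x.1 = y.1 ↔ x = y := Subtype.ext_iff.symm

theorem lt_iff (x y : Car h) : KLt E K x.1 y.1 ↔ x < y := by
  rw [lt_iff_le_and_ne, KLt, le_iff, Ne, Ne, val_eq]

theorem zero_val : (0 : Car h).1 = K.zero := rfl

theorem one_val : (1 : Car h).1 = K.one := rfl

instance : IsOrderedAddMonoid (Car h) where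
  add_le_add_left x y hxy z :=
    h.2.1.2.2.2.1 _ _ _ _ _ x.2 y.2 z.2 hxy (h.1.1.1.ap x z) (h.1.1.1.ap y z)

theorem mul_nonneg' (x y : Car h) (hx : 0 ≤ x) (hy : 0 ≤ y) : 0 ≤ x * y :=
  h.2.1.2.2.2.2 _ _ _ x.2 y.2 hx hy (h.1.2.1.1.ap x y)

instance : ZeroLEOneClass (Car h) where
  zero_le_one := by
    rcases le_total (0 : Car h) 1 with h1 | h1
    · exact h1
    · have := mul_nonneg' (-1 : Car h) (-1) (neg_nonneg.2 h1) (neg_nonneg.2 h1)
      simpa using this

instance : IsStrictOrderedRing (Car h) :=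
  IsStrictOrderedRing.of_mul_pos fun x y hx hy =>
    (mul_nonneg' x y hx.le hy.le).lt_of_ne (mul_ne_zero hx.ne' hy.ne').symm

theorem near_iff (a b ε : Car h) : Near E K a.1 b.1 ε.1 ↔ |a - b| < ε := by
  simp only [Near, add_iff, exists_and_left, exists_eq_left, lt_iff, abs_sub_lt_iff]
  constructor <;> rintro ⟨h1, h2⟩ <;> constructor <;> linarith

end Car

/-- The internal metric as a function into the ordered field. -/
noncomputable def IsMetric.dist {d X : M} (m : IsMetric E K d X) (h : IsReals E K)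
    (x y : {a // E a X}) : Car h := m.1.fn x y

namespace IsMetric

variable {d X : M} (m : IsMetric E K d X) (h : IsReals E K)

theorem dist_iff (x y : {a // E a X}) (z : M) : Ap2 E d x.1 y.1 z ↔ z = (m.dist h x y).1 :=
  m.1.spec x y z

theorem dist_eq_zero (x y : {a // E a X}) : m.dist h x y = 0 ↔ x = y := by
  rw [← Car.val_eq, Subtype.ext_iff, ← m.2.1 _ _ x.2 y.2, m.dist_iff h, eq_comm]
  rfl

theorem dist_self (x : {a // E a X}) : m.dist h x x = 0 := (m.dist_eq_zero h x x).2 rfl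

theorem dist_comm (x y : {a // E a X}) : m.dist h x y = m.dist h y x :=
  (m.1.eq (m.2.2.1 _ _ _ x.2 y.2 (m.1.ap x y))).symm

theorem dist_triangle (x y z : {a // E a X}) : m.dist h x z ≤ m.dist h x y + m.dist h y z :=
  m.2.2.2 _ _ _ _ _ _ _ x.2 y.2 z.2 (m.1.ap x y) (m.1.ap y z) (m.1.ap x z)
    ((Car.add_iff _ _ _).2 rfl)

theorem dist_nonneg (x y : {a // E a X}) : 0 ≤ m.dist h x y := by
  have := m.dist_triangle h x y x
  rw [m.dist_self, m.dist_comm h y x] at this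
  linarith

theorem open_iff {τ : M} (hτ : Induces E K d X τ) (U : M) :
    E U τ ↔ Sub E U X ∧ ∀ x : {a // E a X}, E x.1 U → ∃ ε : Car h, 0 < ε ∧
      ∀ y, m.dist h x y < ε → E y.1 U := by
  rw [hτ U]
  refine and_congr_right fun hU => ⟨fun H x hx => ?_, fun H x hx => ?_⟩
  · obtain ⟨ε, h1, h2, h3⟩ := H x.1 hx
    exact ⟨⟨ε, h1⟩, (Car.lt_iff (h := h) 0 ⟨ε, h1⟩).1 h2, fun y hy =>
      h3 y.1 _ y.2 (m.1.ap x y) ((Car.lt_iff _ _).2 hy)⟩
  · obtain ⟨ε, h1, h2⟩ := H ⟨x, hU x hx⟩ hx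
    refine ⟨ε.1, ε.2, (Car.lt_iff 0 ε).2 h1, fun y a hy ha hlt => h2 ⟨y, hy⟩ ?_⟩
    rw [(m.dist_iff h ⟨x, hU x hx⟩ ⟨y, hy⟩ a).1 ha] at hlt
    exact (Car.lt_iff _ _).1 hlt

end IsMetric

end Pool.Agent.MP_d9473e_lc

end

-- part MP_d9473e_lc.Embed
section

/-!
In a model of ZF: a metric space with a dense subset that is the image of a set of reals embeds
in the cube; compact metric spaces have finite covers by small sets.
-/

namespace Pool.Agent.MP_d9473e_lc

open Pool.Agent.Lib.Forcing Pool.Agent.Lib.SymForcing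

universe u

variable {M : Type u} {E : M → M → Prop} {K : Fld M}

instance df_klt [Nonempty M] (s t : (ℕ → M) → M) [Tm s] [Tm t] :
    Df E (fun v => KLt E K (s v) (t v)) := by unfold KLt; infer_instance

instance df_cubePt [Nonempty M] (s : (ℕ → M) → M) [Tm s] :
    Df E (fun v => CubePt E K (s v)) := by unfold CubePt Fn; infer_instance

/-- The coordinate functions of the embedding, internally. -/
def Phi (E : M → M → Prop) (K : Fld M) (d X c x r t : M) : Prop :=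
  (∃ y a, E y X ∧ Ap E c r y ∧ Ap2 E d x y a ∧
    ((Ap E K.le a K.one ∧ t = a) ∨ (¬ Ap E K.le a K.one ∧ t = K.one))) ∨
  ((¬ ∃ y, E y X ∧ Ap E c r y) ∧ t = K.zero)

instance df_phi [Nonempty M] (d X c : M) (s t r : (ℕ → M) → M) [Tm s] [Tm t] [Tm r] :
    Df E (fun v => Phi E K d X c (s v) (t v) (r v)) := by unfold Phi; infer_instance

theorem CubePt.val {h : IsReals E K} {g : M} (hg : CubePt E K g) (r : Car h) :
    ∃ t : Car h, Ap E g r.1 t.1 := by
  obtain ⟨t, ht, -⟩ := hg.2.1 r.1 r.2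
  exact ⟨⟨t, (hg.2.2 _ _ ht).1⟩, ht⟩

theorem embeds_of_dense (z : ZF E) (h : IsReals E K) {d X τ : M} (m : IsMetric E K d X)
    (hτ : Induces E K d X τ) (c : M) (hfun : ∀ r y y', Ap E c r y → Ap E c r y' → y = y')
    (hd : ∀ (x : {a // E a X}) (ε : Car h), 0 < ε →
      ∃ (r : Car h) (y : {a // E a X}), Ap E c r.1 y.1 ∧ m.dist h x y < ε) :
    Embeds E K X τ := by
  classical
  have := z.nonempty
  let val : {a // E a X} → Car h → Car h := fun x r =>
    if e : ∃ y : {a // E a X}, Ap E c r.1 y.1 then min (m.dist h x e.choose) 1 else 0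
  have hval : ∀ x (r : Car h) (y : {a // E a X}), Ap E c r.1 y.1 →
      val x r = min (m.dist h x y) 1 := fun x r y hy => by
    have e : ∃ y : {a // E a X}, Ap E c r.1 y.1 := ⟨y, hy⟩
    simp only [val, dif_pos e]
    rw [Subtype.ext (hfun _ _ _ e.choose_spec hy)]
  have hval0 : ∀ x (r : Car h), (¬ ∃ y : {a // E a X}, Ap E c r.1 y.1) → val x r = 0 :=
    fun x r e => dif_neg e
  have hΦ : ∀ (x : {a // E a X}) (r : Car h) t, Phi E K d X c x.1 r.1 t ↔ t = (val x r).1 := by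
    intro x r t
    by_cases e : ∃ y : {a // E a X}, Ap E c r.1 y.1
    · obtain ⟨y, hy⟩ := e
      rw [hval x r y hy]
      constructor
      · rintro (⟨y', a, h1, h2, h3, h4⟩ | ⟨h1, -⟩)
        · obtain rfl : y.1 = y' := hfun _ _ _ hy h2
          obtain rfl := (m.dist_iff h x y a).1 h3
          rcases h4 with ⟨h4, rfl⟩ | ⟨h4, rfl⟩
          · rw [min_eq_left ((Car.le_iff _ 1).1 h4)]
          · rw [min_eq_right (not_le.1 (mt (Car.le_iff _ 1).2 h4)).le]; rfl
        · exact (h1 ⟨y.1, y.2, hy⟩).elim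
      · rintro rfl
        refine Or.inl ⟨y.1, _, y.2, hy, (m.dist_iff h x y _).2 rfl, ?_⟩
        rcases le_or_gt (m.dist h x y) 1 with h1 | h1
        · exact Or.inl ⟨h1, by rw [min_eq_left h1]⟩
        · exact Or.inr ⟨not_le.2 h1, by rw [min_eq_right h1.le]; rfl⟩
    · rw [hval0 x r e]
      constructor
      · rintro (⟨y', a, h1, h2, -⟩ | ⟨-, h1⟩)
        · exact (e ⟨⟨y', h1⟩, h2⟩).elim
        · exact h1
      · exact fun h1 => Or.inr ⟨fun ⟨y, h2, h3⟩ => e ⟨⟨y, h2⟩, h3⟩, h1⟩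
  have hrange : ∀ x r, 0 ≤ val x r ∧ val x r ≤ 1 := fun x r => by
    by_cases e : ∃ y : {a // E a X}, Ap E c r.1 y.1
    · obtain ⟨y, hy⟩ := e
      rw [hval x r y hy]
      exact ⟨le_min (m.dist_nonneg h _ _) zero_le_one, min_le_right _ _⟩
    · rw [hval0 x r e]
      exact ⟨le_rfl, zero_le_one⟩
  have hlip : ∀ x y r, |val x r - val y r| ≤ m.dist h x y := fun x y r => by
    by_cases e : ∃ y : {a // E a X}, Ap E c r.1 y.1
    · obtain ⟨w, hw⟩ := e
      rw [hval x r w hw, hval y r w hw]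
      refine (abs_min_sub_min_le_max _ _ _ _).trans (max_le ?_ (by simpa using m.dist_nonneg h x y))
      have h1 := m.dist_triangle h x y w
      have h2 := m.dist_triangle h y x w
      rw [m.dist_comm h y x] at h2
      rw [abs_sub_le_iff]
      constructor <;> linarith
    · rw [hval0 x r e, hval0 y r e]
      simpa using m.dist_nonneg h x y
  obtain ⟨Q, hQ⟩ := z.exists_fnspace K.R K.R
  have hQ' : ∀ g, CubePt E K g → E g Q := fun g hg => hQ _ g hg fun _ _ h => h.1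
  obtain ⟨e, he1, he⟩ := z.exists_graph X Q
    (fun x g => CubePt E K g ∧ ∀ r t, Ap E g r t → Phi E K d X c x r t)
  have hev : ∀ (x : {a // E a X}) g, Ap E e x.1 g → ∀ (r : Car h) t,
      Ap E g r.1 t ↔ t = (val x r).1 := fun x g hg r t => by
    obtain ⟨-, -, h1, h2⟩ := (he _ _).1 hg
    refine ⟨fun ht => (hΦ x r t).1 (h2 _ _ ht), fun ht => ?_⟩
    obtain ⟨t', ht'⟩ := h1.val r
    rwa [ht, ← (hΦ x r _).1 (h2 _ _ ht')]
  have hex : ∀ x : {a // E a X}, ∃ g, Ap E e x.1 g := fun x => by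
    obtain ⟨g, hg1, hg⟩ := z.exists_graph K.R K.R (fun r t => Phi E K d X c x.1 r t)
    have hc : CubePt E K g := by
      refine ⟨hg1, fun r hr => ⟨(val x ⟨r, hr⟩).1, (hg _ _).2 ⟨hr, (val x ⟨r, hr⟩).2,
        (hΦ x ⟨r, hr⟩ _).2 rfl⟩, fun t ht => (hΦ x ⟨r, hr⟩ _).1 ((hg _ _).1 ht).2.2⟩,
        fun r t ht => ?_⟩
      obtain ⟨hr, h1, h2⟩ := (hg _ _).1 ht
      obtain rfl := (hΦ x ⟨r, hr⟩ _).1 h2
      exact ⟨h1, (hrange x _).1, (hrange x _).2⟩
    exact ⟨g, (he _ _).2 ⟨x.2, hQ' g hc, hc, fun r t ht => ((hg _ _).1 ht).2.2⟩⟩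
  refine ⟨e, ⟨he1, fun x hx => ?_, fun x g hg => ((he _ _).1 hg).2.2.1⟩, fun x x' g h1 h2 => ?_,
    fun U => ?_⟩
  · obtain ⟨g, hg⟩ := hex ⟨x, hx⟩
    refine ⟨g, hg, fun g' hg' => ?_⟩
    have c1 := ((he _ _).1 hg).2.2.1
    have c2 := ((he _ _).1 hg').2.2.1
    refine z.fn_ext c2 c1 fun r t => ⟨fun ht => ?_, fun ht => ?_⟩
    · exact (hev ⟨x, hx⟩ g hg ⟨r, z.fn_dom c2 ht⟩ t).2
        ((hev ⟨x, hx⟩ g' hg' ⟨r, z.fn_dom c2 ht⟩ t).1 ht)
    · exact (hev ⟨x, hx⟩ g' hg' ⟨r, z.fn_dom c1 ht⟩ t).2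
        ((hev ⟨x, hx⟩ g hg ⟨r, z.fn_dom c1 ht⟩ t).1 ht)
  · lift x to {a // E a X} using ((he _ _).1 h1).1
    lift x' to {a // E a X} using ((he _ _).1 h2).1
    by_contra hne
    have hpos : 0 < m.dist h x x' := (m.dist_nonneg h _ _).lt_of_ne
      fun e => hne (congrArg _ ((m.dist_eq_zero h _ _).1 e.symm))
    obtain ⟨r, y, hy, hlt⟩ := hd x (min (m.dist h x x') 1 / 2) (by positivity)
    have e1 : val x r = val x' r :=
      (Car.val_eq _ _).1 ((hev x' g h2 r _).1 ((hev x g h1 r _).2 rfl))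
    rw [hval x r y hy, hval x' r y hy] at e1
    have h3 := m.dist_triangle h x y x'
    rw [m.dist_comm h y x'] at h3
    have h4 := min_le_left (m.dist h x x') 1
    have h5 := min_le_right (m.dist h x x') 1
    rw [min_eq_left (by linarith : m.dist h x y ≤ 1)] at e1
    rcases min_cases (m.dist h x' y) 1 with ⟨h6, -⟩ | ⟨h6, -⟩ <;> rw [h6] at e1 <;> linarith
  · rw [m.open_iff h hτ]
    refine and_congr_right fun hU => ⟨fun H => ?_, fun ⟨W, hW, H⟩ x hx => ?_⟩
    · obtain ⟨W, hW⟩ := z.sep' (fun g => CubePt E K g ∧ ∃ r y δ, E r K.R ∧ E y X ∧ Ap E c r y ∧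
        E δ K.R ∧ Ap E K.le δ K.one ∧ (∀ w a, E w X → Ap2 E d y w a → KLt E K a δ → E w U) ∧
        ∃ t, Ap E g r t ∧ KLt E K t δ) Q
      refine ⟨W, fun g hg => ?_, fun x g hg => ?_⟩
      · obtain ⟨-, hc, r, y, δ, hr, hy, hry, hδ, hδ1, hb, t, ht, hlt⟩ := (hW g).1 hg
        obtain ⟨F, hF⟩ := z.pair r r
        lift r to Car h using hr
        lift δ to Car h using hδ
        lift t to Car h using (hc.2.2 _ _ ht).1
        have hlt' := (Car.lt_iff _ _).1 hlt
        refine ⟨hc, F, (δ - t).1, z.isFin_single (a := r.1) (by simpa using hF), fun i hi => ?_,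
          (δ - t).2, (Car.lt_iff 0 _).2 (sub_pos.2 hlt'), fun g' hg' hn => ?_⟩
        · rcases (hF i).1 hi with rfl | rfl <;> exact r.2
        · obtain ⟨t', ht'⟩ := hg'.val r
          have := (Car.near_iff _ _ _).1 (hn _ _ _ ((hF _).2 (Or.inl rfl)) ht ht')
          refine (hW g').2 ⟨hQ' _ hg', hg', r.1, y, δ.1, r.2, hy, hry, δ.2, hδ1, hb, t'.1, ht',
            (Car.lt_iff _ _).2 ?_⟩
          rw [abs_sub_lt_iff] at this
          linarith [this.2]
      · lift x to {a // E a X} using ((he _ _).1 hg).1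
        have hc := ((he _ _).1 hg).2.2.1
        constructor
        · intro hx
          obtain ⟨ε, hε, hb⟩ := H x hx
          have h4 := min_le_left ε 1
          have h5 := min_le_right ε 1
          have h6 : 0 < min ε 1 := by positivity
          obtain ⟨r, y, hy, hlt⟩ := hd x (min ε 1 / 2) (by positivity)
          refine (hW g).2 ⟨hQ' _ hc, hc, r.1, y.1, (min ε 1 / 2).1, r.2, y.2, hy, (min ε 1 / 2).2,
            (Car.le_iff _ 1).2 (by linarith), fun w a hw ha hlt' => hb ⟨w, hw⟩ ?_, _,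
            (hev x g hg r _).2 rfl, (Car.lt_iff _ _).2 ?_⟩
          · rw [(m.dist_iff h y ⟨w, hw⟩ a).1 ha, Car.lt_iff] at hlt'
            linarith [m.dist_triangle h x y ⟨w, hw⟩]
          · rw [hval x r y hy]
            exact (min_le_left _ _).trans_lt hlt
        · intro hg'
          obtain ⟨-, -, r, y, δ, hr, hy, hry, hδ, hδ1, hb, t, ht, hlt⟩ := (hW g).1 hg'
          lift r to Car h using hr
          lift δ to Car h using hδ
          lift y to {a // E a X} using hy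
          rw [(hev x g hg r t).1 ht, hval x r y hry, Car.lt_iff] at hlt
          refine hb x.1 _ x.2 ((m.dist_iff h y x _).2 rfl) ((Car.lt_iff _ _).2 ?_)
          rw [m.dist_comm]
          exact (min_lt_iff.1 hlt).resolve_right (not_lt.2 ((Car.le_iff δ 1).1 hδ1))
    · obtain ⟨g, hg⟩ := hex x
      obtain ⟨-, F, ε, -, hF, hε, hε0, hn⟩ := hW g ((H _ _ hg).1 hx)
      lift ε to Car h using hε
      refine ⟨ε, (Car.lt_iff 0 ε).1 hε0, fun y hy => ?_⟩
      obtain ⟨g', hg'⟩ := hex y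
      refine (H _ _ hg').2 (hn g' ((he _ _).1 hg').2.2.1 fun i a b hi ha hb => ?_)
      rw [(hev x g hg ⟨i, hF i hi⟩ a).1 ha, (hev y g' hg' ⟨i, hF i hi⟩ b).1 hb, Car.near_iff]
      exact (hlip _ _ _).trans_lt hy

/-- All distances in `U` are smaller than `1 / a`. -/
def Small (E : M → M → Prop) (K : Fld M) (d a U : M) : Prop :=
  ∀ x y δ s, E x U → E y U → Ap2 E d x y δ → Ap2 E K.mul δ a s → KLt E K s K.one

/-- `X` is covered by `n` small sets. -/
def Cov (E : M → M → Prop) (K : Fld M) (d X a n : M) : Prop :=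
  ∃ f D, Bij E f n D ∧ (∀ x, E x X → ∃ U, E U D ∧ E x U) ∧ ∀ U, E U D → Small E K d a U

theorem small_cover (z : ZF E) (h : IsReals E K) {d X τ : M} (m : IsMetric E K d X)
    (hτ : Induces E K d X τ) (hc : IsCompact E X τ) (a : Car h) (ha : 0 ≤ a) :
    ∃ w n, Om E w ∧ E n w ∧ Cov E K d X a.1 n := by
  have := z.nonempty
  have : Df E (fun v => Small E K d a.1 (v 0)) := by unfold Small; infer_instance
  obtain ⟨C, hC⟩ := z.sep' (fun U => Small E K d a.1 U) τ
  obtain ⟨D, h1, ⟨w, n, f, hw, hn, hf⟩, h2⟩ := hc C (fun U hU => ((hC U).1 hU).1) fun x hx => by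
    lift x to {a // E a X} using hx
    set ε : Car h := 1 / (2 * (a + 1)) with hε
    have hε0 : 0 < ε := by positivity
    obtain ⟨U, hU⟩ := z.sep' (fun y => ∀ δ, Ap2 E d x.1 y δ → KLt E K δ ε.1) X
    have hU' : ∀ y : {a // E a X}, E y.1 U ↔ m.dist h x y < ε := fun y => by
      simp only [hU, y.2, true_and, m.dist_iff h, forall_eq, Car.lt_iff]
    refine ⟨U, (hC U).2 ⟨(m.open_iff h hτ U).2 ⟨fun y hy => ((hU y).1 hy).1, fun y hy =>
      ⟨ε - m.dist h x y, sub_pos.2 ((hU' y).1 hy), fun w hw => (hU' w).2 ?_⟩⟩, ?_⟩,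
      (hU' x).2 (by rwa [m.dist_self])⟩
    · linarith [m.dist_triangle h x y w]
    · intro y w δ s hy hw h1 h2
      lift y to {a // E a X} using ((hU y).1 hy).1
      lift w to {a // E a X} using ((hU w).1 hw).1
      rw [(m.dist_iff h y w δ).1 h1, Car.mul_iff] at h2
      rw [h2]
      refine (Car.lt_iff _ 1).2 ?_
      have h3 := m.dist_triangle h y x w
      rw [m.dist_comm h y x] at h3
      have h4 : m.dist h y w < 2 * ε := by linarith [(hU' y).1 hy, (hU' w).1 hw]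
      have h5 : 2 * ε * (a + 1) = 1 := by rw [hε]; field_simp
      nlinarith [m.dist_nonneg h y w]
  exact ⟨w, n, hw, hn, f, D, hf, h2, fun U hU => ((hC U).1 (h1 U hU)).2⟩

end Pool.Agent.MP_d9473e_lc

end

-- part MP_d9473e_lc.Code
section

/-!
Names for rational numbers and for reals coded by Boolean-valued bit sequences.
-/

namespace Pool.Agent.MP_d9473e_lc

open Pool.Agent.Lib.Forcing Pool.Agent.Lib.SymForcing Sys Function

universe u

/-- Image of the field data under a map. -/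
@[reducible] def Fld.map {M M' : Type u} (f : M → M') (K : Fld M) : Fld M' :=
  ⟨f K.R, f K.add, f K.mul, f K.le, f K.zero, f K.one⟩

variable {B : Type} [CompleteBooleanAlgebra B] {S : Sys B}

section Rep

set_option synthInstance.maxSize 4000

variable (K : Fld S.GN)

instance rep_op (f A C : S.GN) : Rep (fun U => Op (S.EN U) (cg U f) (cg U A) (cg U C)) := by
  unfold Op; infer_instance

instance rep_commMon (f A e : S.GN) :
    Rep (fun U => CommMon (S.EN U) (cg U f) (cg U A) (cg U e)) := by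
  unfold CommMon; infer_instance

instance rep_ub (A b : S.GN) : Rep (fun U => UB (S.EN U) (K.map (cg U)) (cg U A) (cg U b)) := by
  unfold UB; infer_instance

instance rep_isReals : Rep (fun U => IsReals (S.EN U) (K.map (cg U))) := by
  unfold IsReals IsFld IsOrd; infer_instance

instance rep_klt (x y : S.GN) : Rep (fun U => KLt (S.EN U) (K.map (cg U)) (cg U x) (cg U y)) := by
  unfold KLt; infer_instance

instance rep_isMetric (d X : S.GN) :
    Rep (fun U => IsMetric (S.EN U) (K.map (cg U)) (cg U d) (cg U X)) := by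
  unfold IsMetric; infer_instance

instance rep_induces (d X τ : S.GN) :
    Rep (fun U => Induces (S.EN U) (K.map (cg U)) (cg U d) (cg U X) (cg U τ)) := by
  unfold Induces; infer_instance

instance rep_isCompact (X τ : S.GN) : Rep (fun U => IsCompact (S.EN U) (cg U X) (cg U τ)) := by
  unfold IsCompact; infer_instance

instance rep_cov (d X a n : S.GN) :
    Rep (fun U => Cov (S.EN U) (K.map (cg U)) (cg U d) (cg U X) (cg U a) (cg U n)) := by
  unfold Cov Small; infer_instance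

end Rep

/-- The number coded by a finite set of digits. -/
def dval (s : Finset ℕ) : ℚ := ∑ j ∈ s, (1 / 3) ^ j

theorem dval_nonneg (s : Finset ℕ) : 0 ≤ dval s := Finset.sum_nonneg fun _ _ => by positivity

theorem dval_tail (s : Finset ℕ) (j : ℕ) (h : ∀ i ∈ s, j ≤ i) : dval s ≤ 3 / 2 * (1 / 3) ^ j := by
  obtain ⟨N, hN⟩ := s.bddAbove
  have h1 : s ⊆ Finset.Ico j (N + 1) := fun i hi =>
    Finset.mem_Ico.2 ⟨h i hi, Nat.lt_succ_of_le (hN hi)⟩
  refine (Finset.sum_le_sum_of_subset_of_nonneg h1 fun _ _ _ => by positivity).trans ?_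
  refine (geom_sum_Ico_le_of_lt_one (by norm_num) (by norm_num)).trans (le_of_eq ?_)
  ring

theorem dval_le {s s' : Finset ℕ} {j : ℕ} (h : ∀ i ∈ s, i ≤ j → i ∈ s') :
    dval s ≤ dval s' + (1 / 3) ^ j / 2 := by
  rw [dval, ← Finset.sum_filter_add_sum_filter_not s (· ≤ j)]
  refine add_le_add (Finset.sum_le_sum_of_subset_of_nonneg (fun i hi => ?_)
    fun _ _ _ => by positivity) ?_
  · rw [Finset.mem_filter] at hi
    exact h i hi.1 hi.2
  · refine (dval_tail _ (j + 1) fun i hi => not_le.1 (Finset.mem_filter.1 hi).2).trans (le_of_eq ?_)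
    ring

/-- Field data named by names with a common support. -/
structure SK (S : Sys B) where
  K : Fld S.GN
  H : Subgroup S.G
  hH : H ∈ S.F
  sR : S.Supp H K.R.1
  sadd : S.Supp H K.add.1
  smul : S.Supp H K.mul.1
  sle : S.Supp H K.le.1
  szero : S.Supp H K.zero.1
  sone : S.Supp H K.one.1

namespace SK

variable (D : SK S)

/-- The named data is a complete ordered field. -/
abbrev Re (U : Ult B) : Prop := IsReals (S.EN U) (D.K.map (cg U))

theorem exists_nat (n : ℕ) :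
    ∃ x : S.GN, S.Supp D.H x.1 ∧ ∀ U (h : D.Re U), cg U x = (n : Car h).1 := by
  induction n with
  | zero => exact ⟨D.K.zero, D.szero, fun U h => by rw [Nat.cast_zero]; rfl⟩
  | succ n ih =>
    obtain ⟨x, hx, h1⟩ := ih
    obtain ⟨y, hy, h2⟩ := exists_elem D.H
      (fun U a => Ap2 (S.EN U) (cg U D.K.add) (cg U x) (cg U D.K.one) a)
      (fun g hg U a => by simp only [hx.fix hg U, D.sadd.fix hg U, D.sone.fix hg U, Iso.ap2])
    refine ⟨y, hy, fun U h => ?_⟩
    have e := Car.add_iff (h := h) n 1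
    rw [← h1 U h] at e
    rw [Nat.cast_succ]
    exact (h2 U _ ((e _).2 rfl) fun b hb => (e b).1 hb).symm

theorem exists_rat (q : ℚ) :
    ∃ x : S.GN, S.Supp D.H x.1 ∧ (0 ≤ q → ∀ U (h : D.Re U), cg U x = (q : Car h).1) := by
  obtain ⟨x, hx, h1⟩ := D.exists_nat q.num.toNat
  obtain ⟨y, hy, h2⟩ := D.exists_nat q.den
  obtain ⟨z, hz, h3⟩ := exists_elem D.H
    (fun U a => S.EN U a (cg U D.K.R) ∧ Ap2 (S.EN U) (cg U D.K.mul) a (cg U y) (cg U x))
    (fun g hg U a => by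
      simp only [hx.fix hg U, hy.fix hg U, D.smul.fix hg U, D.sR.fix hg U, Iso.ap2, Iso.mem])
  refine ⟨z, hz, fun hq U h => ?_⟩
  have e : ∀ a : Car h, Ap2 (S.EN U) (cg U D.K.mul) a.1 (cg U y) (cg U x) ↔ a = q := fun a => by
    rw [h1 U h, h2 U h]
    refine (Car.mul_iff (h := h) a q.den _).trans ?_
    have h4 : ((q.num.toNat : ℕ) : Car h) = q * q.den := by
      rw [← Int.cast_natCast, Int.toNat_of_nonneg (Rat.num_nonneg.2 hq)]
      exact_mod_cast (Rat.mul_den_eq_num q).symm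
    rw [Car.val_eq, h4, mul_left_inj' (Nat.cast_ne_zero.2 q.den_nz), eq_comm]
  exact (h3 U _ ⟨(q : Car h).2, (e _).2 rfl⟩ fun b hb =>
    congrArg Subtype.val ((e ⟨b, hb.1⟩).1 hb.2)).symm

/-- Names of rational numbers. -/
noncomputable def rat (q : ℚ) : S.GN := (D.exists_rat q).choose

theorem supp_rat (q : ℚ) : S.Supp D.H (D.rat q).1 := (D.exists_rat q).choose_spec.1

theorem rat_eq {q : ℚ} (hq : 0 ≤ q) (U : Ult B) (h : D.Re U) : cg U (D.rat q) = (q : Car h).1 :=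
  (D.exists_rat q).choose_spec.2 hq U h

theorem rat_le {q r : ℚ} (hq : 0 ≤ q) (hqr : q ≤ r) (U : Ult B) (h : D.Re U) :
    Ap (S.EN U) (cg U D.K.le) (cg U (D.rat q)) (cg U (D.rat r)) := by
  rw [D.rat_eq hq U h, D.rat_eq (hq.trans hqr) U h]
  exact (Car.le_iff (h := h) _ _).2 (Rat.cast_le.2 hqr)

theorem rat_mem {q : ℚ} (hq : 0 ≤ q) (U : Ult B) (h : D.Re U) :
    S.EN U (cg U (D.rat q)) (cg U D.K.R) := by
  rw [D.rat_eq hq U h]
  exact (q : Car h).2

/-- The partial sums of a Boolean-valued ternary expansion. -/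
noncomputable def L (β : ℕ → B) : Nm B := lst (fun s => D.rat (dval s)) fun s => s.inf β

theorem nmap_L (β : ℕ → B) {g : S.G} (hg : g ∈ D.H) :
    Feq (nmap (S.σ g) (D.L β)) (D.L fun j => S.σ g (β j)) := by
  rw [L, nmap_lst]
  exact feq_lst (Equiv.refl _) (fun s => D.supp_rat _ g hg) fun s => map_finset_inf _ _ _

/-- `a` is the real number with the expansion `β`. -/
def Code (β : ℕ → B) (U : Ult B) (a : S.N U) : Prop :=
  S.EN U a (cg U D.K.R) ∧ (∀ z, Mem U z (D.L β) → Ap (S.EN U) (cg U D.K.le) z a) ∧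
    ∀ b, S.EN U b (cg U D.K.R) → (∀ z, Mem U z (D.L β) → Ap (S.EN U) (cg U D.K.le) z b) →
      Ap (S.EN U) (cg U D.K.le) a b

instance rep_code (β : ℕ → B) (x : S.GN) : Rep (fun U => D.Code β U (cg U x)) := by
  unfold Code; infer_instance

theorem code_iso (β : ℕ → B) {g : S.G} (hg : g ∈ D.H) (U : Ult B) (a : S.N U) :
    D.Code (fun j => S.σ g (β j)) _ ((iso g U).f a) ↔ D.Code β U a := by
  have : ∀ z, Mem (umap (S.σ g) U) ((iso g U).f z) (D.L fun j => S.σ g (β j)) ↔ Mem U z (D.L β) :=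
    fun z => by rw [← Mem_iso g U z, Mem, Mem, D.nmap_L β hg]
  simp only [Code, D.sR.fix hg U, D.sle.fix hg U, (iso g U).all, this, Iso.mem, Iso.ap]

theorem exists_code (β : ℕ → B) (A : S.GN) (hA : Feq A.1 (D.L β)) (U : Ult B) (h : D.Re U) :
    ∃ a, D.Code β U a := by
  have e : ∀ z, S.EN U z (cg U A) ↔ Mem U z (D.L β) := fun z => by
    rw [Mem, ← hA U]; rfl
  obtain ⟨s, h1, h2⟩ := h.2.2 (cg U A) (fun z hz => lst_elim _ _
      (fun U z => D.Re U → S.EN U z (cg U D.K.R))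
      (fun V s _ hV => D.rat_mem (dval_nonneg s) V hV) U z ((e z).1 hz) h)
    ⟨_, (e _).2 (lst_intro _ _ U ∅ U.top)⟩
    ⟨cg U (D.rat 2), D.rat_mem (by norm_num) U h, fun z hz => lst_elim _ _
      (fun U z => D.Re U → Ap (S.EN U) (cg U D.K.le) z (cg U (D.rat 2)))
      (fun V s _ hV => D.rat_le (dval_nonneg s)
        ((dval_tail s 0 fun _ _ => Nat.zero_le _).trans (by norm_num)) V hV) U z ((e z).1 hz) h⟩
  exact ⟨s, h1.1, fun z hz => h1.2 z ((e z).2 hz),
    fun b hb hb' => h2 b ⟨hb, fun z hz => hb' z ((e z).1 hz)⟩⟩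

theorem code_sep_aux {β β' : ℕ → B} {U : Ult B} (h : D.Re U) {a : S.N U} (h1 : D.Code β U a)
    (h2 : D.Code β' U a) (j : ℕ) (hj : ∀ i < j, U.P (β i) ↔ U.P (β' i)) (hb : U.P (β j)) :
    U.P (β' j) := by
  classical
  by_contra hb'
  let s' := (Finset.range j).filter fun i => U.P (β' i)
  have hjs : j ∉ s' := by simp [s']
  have e1 : Mem U (cg U (D.rat (dval (insert j s')))) (D.L β) := by
    refine lst_intro _ _ U _ ((U.finset_inf _ _).2 fun i hi => ?_)
    rcases Finset.mem_insert.1 hi with rfl | hi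
    · exact hb
    · simp only [s', Finset.mem_filter, Finset.mem_range] at hi
      exact (hj i hi.1).2 hi.2
  let κ : B := ((Finset.range (j + 1)) \ s').inf fun i => (β' i)ᶜ
  have hκ : U.P κ := (U.finset_inf _ _).2 fun i hi => (U.compl _).2 fun hi' => by
    simp only [s', Finset.mem_sdiff, Finset.mem_filter, Finset.mem_range] at hi
    rcases Nat.lt_succ_iff_lt_or_eq.1 hi.1 with h3 | rfl
    · exact hi.2 ⟨h3, hi'⟩
    · exact hb' hi'
  have hr : 0 ≤ dval s' + (1 / 3) ^ j / 2 := add_nonneg (dval_nonneg _) (by positivity)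
  have e2 := h2.2.2 (cg U (D.rat (dval s' + (1 / 3) ^ j / 2))) (D.rat_mem hr U h) fun z hz =>
    lst_elim _ _ (fun U z => U.P κ → D.Re U →
      Ap (S.EN U) (cg U D.K.le) z (cg U (D.rat (dval s' + (1 / 3) ^ j / 2))))
      (fun V s hs hκ hV => D.rat_le (dval_nonneg s) (dval_le fun i hi hij => by
        by_contra hn
        exact (V.compl _).1 ((V.finset_inf _ _).1 hκ i
          (Finset.mem_sdiff.2 ⟨Finset.mem_range.2 (by omega), hn⟩)) ((V.finset_inf _ _).1 hs i hi))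
        V hV) U z hz hκ h
  have e3 := h1.2.1 _ e1
  rw [D.rat_eq (dval_nonneg _) U h] at e3
  rw [D.rat_eq hr U h] at e2
  have e4 := ((Car.le_iff (h := h) _ ⟨a, h1.1⟩).1 e3).trans ((Car.le_iff (h := h) ⟨a, h1.1⟩ _).1 e2)
  rw [Rat.cast_le, dval, Finset.sum_insert hjs, ← dval] at e4
  have : (0 : ℚ) < (1 / 3) ^ j := by positivity
  linarith

theorem code_sep {β β' : ℕ → B} {U : Ult B} (h : D.Re U) {a : S.N U} (h1 : D.Code β U a)
    (h2 : D.Code β' U a) (j : ℕ) : U.P (β j) ↔ U.P (β' j) := by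
  induction j using Nat.strong_induction_on with
  | _ j ih => exact ⟨D.code_sep_aux h h1 h2 j ih, D.code_sep_aux h h2 h1 j fun i hi => (ih i hi).symm⟩

/-- The set of natural numbers of the field. -/
noncomputable def nats : S.GN := lstG (fun n : ℕ => D.rat n) (fun _ => ⊤)
  ⟨D.H, D.hH, supp_lst fun g hg => ⟨Equiv.refl _, fun n => D.supp_rat n g hg, fun _ => map_top _⟩⟩

theorem arch (U : Ult B) (h : D.Re U) (ε : Car h) (hε : 0 < ε) :
    ∃ a : Car h, S.EN U a.1 (cg U D.nats) ∧ 1 < ε * a := by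
  by_contra hcon
  push Not at hcon
  have hsub : Sub (S.EN U) (cg U D.nats) (cg U D.K.R) := fun z hz => lst_elim _ _
    (fun U z => D.Re U → S.EN U z (cg U D.K.R))
    (fun V n _ hV => D.rat_mem (Nat.cast_nonneg n) V hV) U z hz h
  have hsuc : ∀ z, S.EN U z (cg U D.nats) → D.Re U →
      ∀ b, Ap2 (S.EN U) (cg U D.K.add) z (cg U D.K.one) b → S.EN U b (cg U D.nats) :=
    lst_elim _ _ (fun U z => D.Re U →
      ∀ b, Ap2 (S.EN U) (cg U D.K.add) z (cg U D.K.one) b → S.EN U b (cg U D.nats))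
      (fun V n _ hV b hb => by
        rw [D.rat_eq (Nat.cast_nonneg n) V hV] at hb
        rw [(Car.add_iff (h := hV) _ 1 b).1 hb]
        have := lst_intro (fun n : ℕ => D.rat n) (fun _ => ⊤) V (n + 1) V.top
        rw [D.rat_eq (Nat.cast_nonneg _) V hV] at this
        push_cast at this ⊢
        exact this) U
  obtain ⟨s, h1, h2⟩ := h.2.2 (cg U D.nats) hsub
    ⟨_, lst_intro (fun n : ℕ => D.rat n) (fun _ => ⊤) U 0 U.top⟩
    ⟨(ε⁻¹).1, (ε⁻¹).2, fun z hz => (Car.le_iff (h := h) ⟨z, hsub z hz⟩ _).2 (by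
      rw [← one_div, le_div_iff₀' hε]
      exact hcon ⟨z, hsub z hz⟩ hz)⟩
  lift s to Car h using h1.1
  have := (Car.le_iff _ _).1 (h2 (s - 1).1 ⟨(s - 1).2, fun z hz => by
    lift z to Car h using hsub z hz
    have := (Car.le_iff (z + 1) s).1 (h1.2 _ (hsuc _ hz h _ ((Car.add_iff z 1 _).2 rfl)))
    exact (Car.le_iff z (s - 1)).2 (by linarith)⟩)
  linarith

end SK

end Pool.Agent.MP_d9473e_lc

end

-- part MP_d9473e_lc.Dense
section

/-!
In a symmetric model with countably many supports whose cosets are coded by reals, every compact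
metric space has a dense subset that is the image of a set of reals.
-/

namespace Pool.Agent.MP_d9473e_lc

open Pool.Agent.Lib.Forcing Pool.Agent.Lib.SymForcing Sys Function

set_option synthInstance.maxSize 4000

variable {B : Type} [CompleteBooleanAlgebra B] {S : Sys B}

/-- Symmetric difference. -/
def dif (a b : B) : B := a ⊓ bᶜ ⊔ b ⊓ aᶜ

/-- Countably many supports with cosets coded by bit sequences, and a countable dense set. -/
structure Coded (S : Sys B) where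
  T : Type
  [cT : Countable T]
  Hs : T → Subgroup S.G
  mem : ∀ t, Hs t ∈ S.F
  cof : ∀ H ∈ S.F, ∃ t, Hs t ≤ H
  γ : T → ℕ → B
  fix : ∀ t, ∀ g ∈ Hs t, ∀ j, S.σ g (γ t j) = γ t j
  sep : ∀ t, ∀ g ∉ Hs t, ⨆ j, dif (γ t j) (S.σ g (γ t j)) = ⊤
  P : Type
  [cP : Countable P]
  q : P → B
  dense : ∀ b ≠ ⊥, ∃ p, q p ≠ ⊥ ∧ q p ≤ b

attribute [instance] Coded.cT Coded.cP

universe u

/-- The distance from `x` to `y` is at least `1 / a`. -/
def Far {M : Type u} (E : M → M → Prop) (K : Fld M) (d a x y : M) : Prop :=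
  ∀ δ s, Ap2 E d x y δ → Ap2 E K.mul δ a s → ¬ KLt E K s K.one

instance rep_far (K : Fld S.GN) (d a x y : S.GN) :
    Rep (fun U => Far (S.EN U) (K.map (cg U)) (cg U d) (cg U a) (cg U x) (cg U y)) := by
  unfold Far; infer_instance

/-- `c` is a partial function on the reals with dense range. -/
def DenseFn {M : Type u} (E : M → M → Prop) (K : Fld M) (d X c : M) : Prop :=
  (∀ r y y', Ap E c r y → Ap E c r y' → y = y') ∧ ∀ x ε, E x X → E ε K.R → KLt E K K.zero ε →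
    ∃ r y a, E r K.R ∧ E y X ∧ Ap E c r y ∧ Ap2 E d x y a ∧ KLt E K a ε

instance rep_denseFn (K : Fld S.GN) (d X c : S.GN) :
    Rep (fun U => DenseFn (S.EN U) (K.map (cg U)) (cg U d) (cg U X) (cg U c)) := by
  unfold DenseFn; infer_instance

namespace SK

variable (D : SK S) (d X τ : S.GN)

/-- The hypotheses on the space. -/
def Hyp (U : Ult B) : Prop :=
  D.Re U ∧ IsMetric (S.EN U) (D.K.map (cg U)) (cg U d) (cg U X) ∧
    Induces (S.EN U) (D.K.map (cg U)) (cg U d) (cg U X) (cg U τ) ∧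
    IsCompact (S.EN U) (cg U X) (cg U τ)

instance rep_hyp : Rep (D.Hyp d X τ) := by unfold Hyp; infer_instance

/-- Separated families of names with a given support. -/
def Good (H : Subgroup S.G) (q : B) (n k : ℕ) (f : ℕ → S.GN) : Prop :=
  (∀ i, S.Supp H (f i).1) ∧ ∀ U : Ult B, U.P q → (∀ i < k, S.EN U (cg U (f i)) (cg U X)) ∧
    ∀ i < k, ∀ j < i,
      Far (S.EN U) (D.K.map (cg U)) (cg U d) (cg U (D.rat n)) (cg U (f i)) (cg U (f j))

theorem good_bound (H : Subgroup S.G) {q : B} (hq : q ≠ ⊥) (hh : ∀ U, U.P q → D.Hyp d X τ U)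
    (n : ℕ) : ∃ m, ∀ f, ¬ D.Good d X H q n (m + 1) f := by
  have : ∃ (m : ℕ) (U : Ult B), U.P q ∧ Cov (S.EN U) (D.K.map (cg U)) (cg U d) (cg U X)
      (cg U (D.rat n)) (cg U (numG m)) := by
    by_contra hcon
    push Not at hcon
    obtain ⟨U, hU⟩ := Ult.exists_mem hq
    obtain ⟨h, m, hτ, hc⟩ := hh U hU
    obtain ⟨w, k, hw, hk, hcov⟩ := small_cover (S.zf U) h m hτ hc ((n : ℚ) : Car h) (by positivity)
    rw [(S.zf U).om_unique hw (om_omG U)] at hk
    rw [← D.rat_eq (Nat.cast_nonneg n) U h] at hcov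
    exact omG_elim (fun U k => U.P q → ¬ Cov (S.EN U) (D.K.map (cg U)) (cg U d) (cg U X)
      (cg U (D.rat n)) k) (fun V m => hcon m V) U k hk hU hcov
  obtain ⟨m, U, hU, g, C, hg, h1, h2⟩ := this
  refine ⟨m, fun f hf => ?_⟩
  obtain ⟨h3, h4⟩ := hf.2 U hU
  obtain ⟨h, mt, -, -⟩ := hh U hU
  have : ∀ i : Fin (m + 1), ∃ (j : Fin m) (V : S.N U), S.EN U V C ∧ S.EN U (cg U (f i)) V ∧
      Ap (S.EN U) g (cg U (numG j)) V := fun i => by
    obtain ⟨V, hV, hi⟩ := h1 _ (h3 i i.2)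
    obtain ⟨x, hx⟩ := hg.2.2 V hV
    obtain ⟨j, hj, rfl⟩ := (mem_numG U m x).1 ((S.zf U).fn_dom hg.1 hx)
    exact ⟨⟨j, hj⟩, V, hV, hi, hx⟩
  choose j V hV hi hj using this
  have key : ∀ a b : Fin (m + 1), b < a → j a ≠ j b := fun a b hab e => by
    have e2 : V a = V b := (S.zf U).fn_unique hg.1 (hj a) (e ▸ hj b)
    have e3 := (mt.dist_iff h ⟨_, h3 a a.2⟩ ⟨_, h3 b b.2⟩ _).2 rfl
    have e4 := (Car.mul_iff (mt.dist h ⟨_, h3 a a.2⟩ ⟨_, h3 b b.2⟩) ((n : ℚ) : Car h) _).2 rfl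
    rw [← D.rat_eq (Nat.cast_nonneg n) U h] at e4
    exact h4 a a.2 b hab _ _ e3 e4 (h2 _ (hV a) _ _ _ _ (hi a) (e2 ▸ hi b) e3 e4)
  obtain ⟨a, b, hab, e⟩ := Fintype.exists_ne_map_eq_of_card_lt j (by simp)
  rcases lt_or_gt_of_ne hab with h' | h'
  · exact key b a h' e.symm
  · exact key a b h' e

theorem exists_max (H : Subgroup S.G) (q : B) (n : ℕ) : ∃ k f, D.Good d X H q n k f ∧
    (q ≠ ⊥ → (∀ U, U.P q → D.Hyp d X τ U) → ∀ f', ¬ D.Good d X H q n (k + 1) f') := by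
  have h0 : D.Good d X H q n 0 fun _ => empG :=
    ⟨fun _ => supp_empG.mono le_top, fun U _ => ⟨fun _ h => by omega, fun _ h => by omega⟩⟩
  by_cases h : q ≠ ⊥ ∧ ∀ U, U.P q → D.Hyp d X τ U
  · obtain ⟨m, hm⟩ := D.good_bound d X τ H h.1 h.2 n
    by_contra hcon
    push Not at hcon
    have : ∀ k, ∃ f, D.Good d X H q n k f := fun k => by
      induction k with
      | zero => exact ⟨_, h0⟩
      | succ k ih =>
        obtain ⟨f, hf⟩ := ih
        exact (hcon k f hf).2.2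
    obtain ⟨f, hf⟩ := this (m + 1)
    exact hm f hf
  · exact ⟨0, _, h0, fun h1 h2 => (h ⟨h1, h2⟩).elim⟩

theorem exists_dense (C : Coded S) : ∃ c : S.GN, ∀ U, D.Hyp d X τ U →
    DenseFn (S.EN U) (D.K.map (cg U)) (cg U d) (cg U X) (cg U c) := by
  classical
  choose k f hf hmax using fun (t : C.T) (p : C.P) (n : ℕ) => D.exists_max d X τ (C.Hs t) (C.q p) n
  obtain ⟨enc, henc⟩ := exists_injective_nat (C.T × C.P × ℕ × ℕ)
  let x : C.T × C.P × ℕ × ℕ → S.GN := fun m => f m.1 m.2.1 m.2.2.1 m.2.2.2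
  have hx : ∀ m, S.Supp (C.Hs m.1) (x m).1 := fun m => (hf _ _ _).1 _
  let β : C.T × C.P × ℕ × ℕ → ℕ → B := fun m j =>
    if j % 2 = 0 then C.γ m.1 (j / 2) else if j = 2 * enc m + 1 then ⊤ else ⊥
  have hβ0 : ∀ m j, β m (2 * j) = C.γ m.1 j := fun m j => by simp [β]
  have hβ1 : ∀ m m', β m (2 * enc m' + 1) = if m' = m then ⊤ else ⊥ := fun m m' => by
    have : (2 * enc m' + 1) % 2 ≠ 0 := by omega
    simp [β, this, henc.eq_iff]
  have hL : ∀ m, S.Sy (D.L (β m)) := fun m => by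
    obtain ⟨H, hH, h1, h2⟩ := S.inf _ _ D.hH (C.mem m.1)
    refine ⟨H, hH, fun g hg => ?_⟩
    have : (fun j => S.σ g (β m j)) = β m := by
      funext j
      simp only [β]
      split_ifs
      · exact C.fix _ g (h2 hg) _
      · exact map_top _
      · exact map_bot _
    simpa only [this] using D.nmap_L (β m) (h1 hg)
  choose ρ hρ using fun m => exists_wit (D.Code (β m))
  have hcode : ∀ (π : D.H) m U, D.Re U →
      D.Code (fun j => S.σ π (β m j)) U (cg U (act π (ρ m))) := by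
    intro π m U h
    obtain ⟨a, ha⟩ := D.exists_code _ (act π (lstG _ _ (hL m))) (D.nmap_L (β m) π.2) U h
    obtain ⟨V, rfl⟩ := umap_surj (S.σ π) U
    obtain ⟨a, rfl⟩ := (iso π.1 V).f.surjective a
    rw [← iso_cg, D.code_iso _ π.2]
    exact hρ m V ⟨a, (D.code_iso _ π.2 V a).1 ha⟩
  let XX : D.H × (C.T × C.P × ℕ × ℕ) → S.GN := fun s => act s.1 (ρ s.2)
  let YY : D.H × (C.T × C.P × ℕ × ℕ) → S.GN := fun s => act s.1 (x s.2)
  have hc : S.Sy (lst (fun i => opG (XX i) (YY i)) fun _ => ⊤) :=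
    ⟨D.H, D.hH, supp_gr fun g hg => ⟨(Equiv.mulLeft (⟨g, hg⟩ : D.H)).prodCongr (Equiv.refl _),
      fun s => ⟨fun U => by simp [XX, act_mul], fun U => by simp [YY, act_mul]⟩⟩⟩
  let c := grG XX YY hc
  have hfun : ∀ s s' U, D.Re U → cg U (XX s) = cg U (XX s') → cg U (YY s) = cg U (YY s') := by
    rintro ⟨π, m⟩ ⟨π', m'⟩ U h e
    have key : ∀ V, D.Re V → cg V (XX (π, m)) = cg V (XX (π', m')) →
        ∀ j, V.P (S.σ π (β m j)) ↔ V.P (S.σ π' (β m' j)) := fun V hV e j =>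
      D.code_sep hV (hcode π m V hV) (e ▸ hcode π' m' V hV) j
    obtain rfl : m = m' := by
      by_contra hne
      have := key U h e (2 * enc m + 1)
      rw [hβ1, hβ1, if_pos rfl, if_neg hne, map_top, map_bot] at this
      exact U.bot (this.1 U.top)
    by_cases hπ : (π.1⁻¹ * π'.1) ∈ C.Hs m.1
    · have := ((hx m _ hπ).nmap (S.σ π)).symm
      rw [← nmap_mul, ← map_mul, mul_inv_cancel_left] at this
      exact cg_eq.2 (this U)
    · have h1 : ⨆ j, dif (S.σ π (C.γ m.1 j)) (S.σ π' (C.γ m.1 j)) = ⊤ := by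
        have := congrArg (S.σ π) (C.sep _ _ hπ)
        rw [map_top, OrderIso.map_iSup] at this
        rw [← this]
        refine iSup_congr fun j => ?_
        simp only [dif, map_sup, map_inf, map_compl, ← RelIso.mul_apply, ← map_mul,
          mul_inv_cancel_left]
      refine (sup_elim _ (fun V => ¬ (D.Re V ∧ cg V (XX (π, m)) = cg V (XX (π', m))))
        (fun V j hj hV => ?_) U (h1 ▸ U.top) ⟨h, e⟩).elim
      have := key V hV.1 hV.2 (2 * j)
      simp only [hβ0] at this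
      simp only [dif, V.sup, V.inf, V.compl] at hj
      tauto
  have hlev : ∀ (y : S.GN), S.Sy y.1 → ∀ (n : ℕ) U, D.Hyp d X τ U → S.EN U (cg U y) (cg U X) →
      ∃ r z, S.EN U r (cg U D.K.R) ∧ S.EN U z (cg U X) ∧ Ap (S.EN U) (cg U c) r z ∧
        ¬ Far (S.EN U) (D.K.map (cg U)) (cg U d) (cg U (D.rat n)) (cg U y) z := by
    rintro y ⟨H, hH, hy⟩ n U h1 h2
    obtain ⟨t, ht⟩ := C.cof H hH
    by_contra h3
    let b := bv (fun U => D.Hyp d X τ U ∧ S.EN U (cg U y) (cg U X) ∧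
      ¬ ∃ r z, S.EN U r (cg U D.K.R) ∧ S.EN U z (cg U X) ∧ Ap (S.EN U) (cg U c) r z ∧
        ¬ Far (S.EN U) (D.K.map (cg U)) (cg U d) (cg U (D.rat n)) (cg U y) z)
    have hb : b ≠ ⊥ := fun e => U.bot (e ▸ (bv_iff _ U).2 ⟨h1, h2, h3⟩ : U.P ⊥)
    obtain ⟨p, hp, hpb⟩ := C.dense b hb
    have hV := fun (V : Ult B) (h : V.P (C.q p)) => (bv_iff _ V).1 (V.mono hpb h)
    refine hmax t p n hp (fun V h => (hV V h).1) (update (f t p n) (k t p n) y)
      ⟨fun i => ?_, fun V h => ⟨fun i hi => ?_, fun i hi j hj => ?_⟩⟩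
    · by_cases e : i = k t p n
      · rw [e, update_self]; exact hy.mono ht
      · rw [update_of_ne e]; exact (hf t p n).1 i
    · by_cases e : i = k t p n
      · rw [e, update_self]; exact (hV V h).2.1
      · rw [update_of_ne e]; exact ((hf t p n).2 V h).1 i (by omega)
    · rw [update_of_ne (by omega : j ≠ k t p n)]
      by_cases e : i = k t p n
      · rw [e, update_self]
        by_contra h4
        have h5 := ap_grG XX YY hc V (1, (t, p, n, j))
        refine (hV V h).2.2 ⟨_, _, (hcode 1 (t, p, n, j) V (hV V h).1.1).1, ?_, h5, ?_⟩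
        · simpa only [YY, OneMemClass.coe_one, act_one] using ((hf t p n).2 V h).1 j (by omega)
        · simpa only [YY, OneMemClass.coe_one, act_one] using h4
      · rw [update_of_ne e]; exact ((hf t p n).2 V h).2 i (by omega) j hj
  refine ⟨c, fun U hU => ⟨fun r y y' h1 h2 => ?_, fun y ε hy hε hε0 => ?_⟩⟩
  · refine grG_elim XX YY hc (fun U r y => D.Re U → ∀ y', Ap (S.EN U) (cg U c) r y' → y = y')
      (fun V s hV y' h => ?_) U r y h1 hU.1 y' h2
    exact grG_elim XX YY hc (fun U r y => D.Re U → cg U (XX s) = r → cg U (YY s) = y)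
      (fun W s' hW => hfun s s' W hW) V _ _ h hV rfl
  · obtain ⟨h, m, -⟩ := id hU
    lift ε to Car h using hε
    have hε1 := (Car.lt_iff 0 ε).1 hε0
    obtain ⟨a, ha, hεa⟩ := D.arch U h ε hε1
    have := sy_elim (fun U y => ∀ a, S.EN U a (cg U D.nats) → D.Hyp d X τ U → S.EN U y (cg U X) →
      ∃ r z, S.EN U r (cg U D.K.R) ∧ S.EN U z (cg U X) ∧ Ap (S.EN U) (cg U c) r z ∧
        ¬ Far (S.EN U) (D.K.map (cg U)) (cg U d) a y z)
      (fun V y hy => lst_elim _ _ (fun U a => D.Hyp d X τ U → S.EN U (cg U y) (cg U X) →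
        ∃ r z, S.EN U r (cg U D.K.R) ∧ S.EN U z (cg U X) ∧ Ap (S.EN U) (cg U c) r z ∧
          ¬ Far (S.EN U) (D.K.map (cg U)) (cg U d) a (cg U y) z)
        (fun W n _ => hlev y hy n W) V) U y a.1 ha hU hy
    obtain ⟨r, z, hr, hz, hrz, hfar⟩ := this
    refine ⟨r, z, _, hr, hz, hrz, (m.dist_iff h ⟨y, hy⟩ ⟨z, hz⟩ _).2 rfl, (Car.lt_iff _ _).2 ?_⟩
    by_contra hle
    refine hfar fun δ s h1 h2 h3 => ?_
    rw [(m.dist_iff h ⟨y, hy⟩ ⟨z, hz⟩ _).1 h1, Car.mul_iff] at h2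
    rw [h2] at h3
    have h4 := (Car.lt_iff _ 1).1 h3
    have h5 : 0 < a := (pos_iff_pos_of_mul_pos (one_pos.trans hεa)).1 hε1
    nlinarith [not_lt.1 hle]

end SK

theorem embeds_of_coded (C : Coded S) (U : Ult B) : CompactMetrizableEmbeds (S.EN U) := by
  rintro K h X τ ⟨d, m, hτ⟩ hc
  have key := params_elim (S := S) 6 (fun U v => ∀ d X τ,
    IsReals (S.EN U) ⟨v 0, v 1, v 2, v 3, v 4, v 5⟩ →
    IsMetric (S.EN U) ⟨v 0, v 1, v 2, v 3, v 4, v 5⟩ d X →
    Induces (S.EN U) ⟨v 0, v 1, v 2, v 3, v 4, v 5⟩ d X τ → IsCompact (S.EN U) X τ →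
    ∃ c, DenseFn (S.EN U) ⟨v 0, v 1, v 2, v 3, v 4, v 5⟩ d X c)
    (hP := fun v => by
      let K : Fld S.GN := ⟨v 0, v 1, v 2, v 3, v 4, v 5⟩
      change Rep (fun U => ∀ d X τ, IsReals (S.EN U) (K.map (cg U)) →
        IsMetric (S.EN U) (K.map (cg U)) d X → Induces (S.EN U) (K.map (cg U)) d X τ →
        IsCompact (S.EN U) X τ → ∃ c, DenseFn (S.EN U) (K.map (cg U)) d X c)
      infer_instance)
    (fun v ⟨H, hH, hv⟩ V d X τ h1 h2 h3 h4 => by
      obtain ⟨d, rfl⟩ := cg_surj V d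
      obtain ⟨X, rfl⟩ := cg_surj V X
      obtain ⟨τ, rfl⟩ := cg_surj V τ
      let D : SK S := ⟨⟨v 0, v 1, v 2, v 3, v 4, v 5⟩, H, hH, hv 0 (by omega), hv 1 (by omega),
        hv 2 (by omega), hv 3 (by omega), hv 4 (by omega), hv 5 (by omega)⟩
      obtain ⟨c, hc⟩ := D.exists_dense d X τ C
      exact ⟨_, hc V ⟨h1, h2, h3, h4⟩⟩)
    U (fun n => [K.R, K.add, K.mul, K.le, K.zero, K.one].getD n K.R) d X τ h m hτ hc
  obtain ⟨c, h1, h2⟩ := key
  refine embeds_of_dense (S.zf U) h m hτ c h1 fun x ε hε => ?_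
  obtain ⟨r, y, a, hr, hy, h3, h4, h5⟩ := h2 x.1 ε.1 x.2 ε.2 ((Car.lt_iff 0 ε).2 hε)
  refine ⟨⟨r, hr⟩, ⟨y, hy⟩, h3, ?_⟩
  rw [(m.dist_iff h x ⟨y, hy⟩ a).1 h4] at h5
  exact (Car.lt_iff _ _).1 h5

end Pool.Agent.MP_d9473e_lc

end
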