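import Pool.Agent.MP_d9473e_lc.Mg.Dense
import Pool.Agent.Lib.SymForcing.Cohen

/-!
The second Cohen model.
-/

namespace Pool.Agent.MP_d9473e_lc

open Pool.Agent.Lib.Forcing Pool.Agent.Lib.SymForcing Sys Function Coh

abbrev Idx : Type := ℕ × Bool × ℕ

def key (a : Idx) : ℕ × Bool := (a.1, a.2.1)

abbrev BB : Type := Coh (Idx × ℕ)

/-- Permutations preserving rows and blocks. -/
def GG : Subgroup (Equiv.Perm Idx) where
  carrier := {π | (∀ a, (π a).1 = a.1) ∧ ∀ a b, key (π a) = key (π b) ↔ key a = key b}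
  one_mem' := ⟨fun _ => rfl, fun _ _ => Iff.rfl⟩
  mul_mem' := fun {π ρ} h1 h2 => ⟨fun a => (h1.1 _).trans (h2.1 a),
    fun a b => (h1.2 _ _).trans (h2.2 a b)⟩
  inv_mem' := fun {π} h => ⟨fun a => by simpa using (h.1 (π⁻¹ a)).symm,
    fun a b => by simpa using (h.2 (π⁻¹ a) (π⁻¹ b)).symm⟩

def coords : GG →* Equiv.Perm (Idx × ℕ) where
  toFun π := Equiv.prodCongr π.1 (Equiv.refl ℕ)
  map_one' := by ext <;> rfl
  map_mul' _ _ := by ext <;> rfl

def fx (t : Finset Idx) : Subgroup GG where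
  carrier := {π | ∀ a ∈ t, π.1 a = a}
  one_mem' := fun _ _ => rfl
  mul_mem' := fun {π ρ} h1 h2 a ha => by
    rw [Subgroup.coe_mul, Equiv.Perm.mul_apply, h2 a ha, h1 a ha]
  inv_mem' := fun {π} h a ha => by
    rw [Subgroup.coe_inv, Equiv.Perm.inv_eq_iff_eq, h a ha]

/-- The symmetric system. -/
noncomputable def SS : Sys BB where
  G := GG
  σ := Coh.hom.comp coords
  F := Set.range fx
  top := ⟨∅, eq_top_iff.2 fun _ _ _ h => by simp at h⟩
  inf := by
    rintro _ _ ⟨s, rfl⟩ ⟨t, rfl⟩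
    exact ⟨_, ⟨s ∪ t, rfl⟩, fun π h a ha => h a (Finset.mem_union_left _ ha),
      fun π h a ha => h a (Finset.mem_union_right _ ha)⟩
  conj := by
    rintro g _ ⟨t, rfl⟩
    refine ⟨_, ⟨t.image g.1, rfl⟩, fun k hk a ha => ?_⟩
    have := hk _ (Finset.mem_image_of_mem _ ha)
    simp [this]

theorem sigma_lit (g : GG) (a : Idx) (k : ℕ) (v : Bool) :
    SS.σ g (lit (a, k) v) = lit (g.1 a, k) v := rfl

theorem generic {a b : Idx} (h : a ≠ b) : ⨆ k, (lit (a, k) true ⊓ lit (b, k) false : BB) = ⊤ := by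
  classical
  refine iSup_eq_top _ fun s ω hω => ?_
  obtain ⟨k, hk⟩ := (s.image fun x => x.1.2).exists_notMem
  refine ⟨k, update (update ω (a, k) true) (b, k) false, mem_cnd.2 fun x hx => ?_, ?_, ?_⟩
  · have : x.1.2 ≠ k := fun e => hk (Finset.mem_image.2 ⟨x, hx, e⟩)
    rw [update_of_ne (fun e => this (congrArg Prod.snd e)),
      update_of_ne (fun e => this (congrArg Prod.snd e))]
    exact mem_cnd.1 hω x hx
  · exact mem_lit.2 (by rw [update_of_ne (fun e => h (congrArg Prod.fst e)), update_self])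
  · exact mem_lit.2 (update_self _ _ _)

noncomputable def enum : ℕ → Idx × ℕ := (exists_surjective_nat (Idx × ℕ)).choose

theorem enum_surj : Surjective enum := (exists_surjective_nat (Idx × ℕ)).choose_spec

noncomputable def coded : Coded SS where
  T := Finset Idx
  Hs := fx
  mem t := ⟨t, rfl⟩
  cof := by
    rintro _ ⟨t, rfl⟩
    exact ⟨t, le_rfl⟩
  γ t j := if (enum j).1 ∈ t then lit ((enum j).1, (enum j).2) true else ⊥
  fix t g hg j := by
    split_ifs with h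
    · rw [sigma_lit, hg _ h]
    · exact map_bot _
  sep t g hg := by
    obtain ⟨a, ha, hne⟩ : ∃ a ∈ t, g.1 a ≠ a := by
      by_contra h
      push Not at h
      exact hg h
    rw [eq_top_iff, ← generic hne.symm]
    refine iSup_le fun k => ?_
    obtain ⟨j, hj⟩ := enum_surj (a, k)
    refine le_iSup_of_le j ?_
    simp only [hj, if_pos ha, dif, sigma_lit, compl_lit]
    exact le_sup_left
  P := Finset ((Idx × ℕ) × Bool)
  q := cnd
  dense := Coh.dense

theorem feq_x (g : GG) (a : Idx) : Feq (nmap (SS.σ g) (lst (S := SS) numG fun k => lit (a, k) true))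
    (lst (S := SS) numG fun k => lit (g.1 a, k) true) := by
  rw [nmap_lst]
  exact feq_lst (Equiv.refl _) (fun k => supp_numG (S := SS) k g trivial) fun _ => rfl

/-- The generic reals. -/
noncomputable def xG (a : Idx) : SS.GN := lstG numG (fun k => lit (a, k) true)
  ⟨fx {a}, ⟨_, rfl⟩, fun g hg => by simpa only [hg a (Finset.mem_singleton_self a)] using feq_x g a⟩

theorem x_ne {a b : Idx} (h : a ≠ b) (U : Ult BB) : cg U (xG a) ≠ cg U (xG b) := by
  refine sup_elim _ (fun U => cg U (xG a) ≠ cg U (xG b)) (fun V k hk e => ?_) U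
    (generic h ▸ U.top)
  rw [V.inf] at hk
  have h1 : SS.EN V (cg V (numG k)) (cg V (xG a)) := lst_intro numG _ V k hk.1
  rw [e] at h1
  refine lst_elim numG _ (fun U z => U.P (lit (b, k) false) → z ≠ cg U (numG k))
    (fun W j hj h2 h3 => ?_) V _ h1 hk.2 rfl
  obtain rfl := (numG_inj W).1 h3
  exact (W.compl _).1 (by rwa [compl_lit]) hj

theorem feq_A (g : GG) (a : Idx) :
    Feq (nmap (SS.σ g) (lst (fun b : {b // key b = key a} => xG b.1) fun _ => ⊤))
      (lst (fun b : {b // key b = key (g.1 a)} => xG b.1) fun _ => ⊤) := by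
  rw [nmap_lst]
  exact feq_lst (g.1.subtypeEquiv fun b => (g.2.2 b a).symm) (fun b => feq_x g b.1)
    fun _ => map_top _

/-- The sets of generic reals. -/
noncomputable def AG (κ : ℕ × Bool) : SS.GN :=
  lstG (fun b : {b // key b = κ} => xG b.1) (fun _ => ⊤)
    ⟨fx {(κ.1, κ.2, 0)}, ⟨_, rfl⟩, fun g hg => by
      have := feq_A g (κ.1, κ.2, 0)
      rwa [hg _ (Finset.mem_singleton_self _)] at this⟩

theorem A_ne {κ κ' : ℕ × Bool} (h : κ ≠ κ') (U : Ult BB) : cg U (AG κ) ≠ cg U (AG κ') := by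
  intro e
  have h1 : SS.EN U (cg U (xG (κ.1, κ.2, 0))) (cg U (AG κ)) :=
    lst_intro (fun b : {b // key b = κ} => xG b.1) _ U ⟨(κ.1, κ.2, 0), rfl⟩ U.top
  rw [e] at h1
  refine lst_elim _ _ (fun U z => z ≠ cg U (xG (κ.1, κ.2, 0))) (fun V b _ => x_ne (fun e => ?_) V)
    U _ h1 rfl
  exact h (by rw [← b.2, e]; rfl)

theorem supp_P (n : ℕ) :
    SS.Supp ⊤ (lst (fun b : {b : Idx // b.1 = n} => AG (key b.1)) fun _ => ⊤) :=
  supp_lst fun g _ => ⟨g.1.subtypeEquiv fun b => by rw [g.2.1 b],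
    fun b => feq_A g b.1, fun _ => map_top _⟩

/-- The pairs. -/
noncomputable def PG (n : ℕ) : SS.GN :=
  lstG (fun b : {b : Idx // b.1 = n} => AG (key b.1)) (fun _ => ⊤) ⟨⊤, SS.top, supp_P n⟩

theorem mem_P (U : Ult BB) (n : ℕ) (z : SS.N U) :
    SS.EN U z (cg U (PG n)) ↔ z = cg U (AG (n, false)) ∨ z = cg U (AG (n, true)) := by
  constructor
  · refine lst_elim _ _ (fun U z => z = cg U (AG (n, false)) ∨ z = cg U (AG (n, true))) ?_ U z
    rintro V ⟨⟨m, _ | _, i⟩, rfl⟩ -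
    · exact Or.inl rfl
    · exact Or.inr rfl
  · rintro (rfl | rfl)
    · exact lst_intro (fun b : {b : Idx // b.1 = n} => AG (key b.1)) _ U ⟨(n, false, 0), rfl⟩ U.top
    · exact lst_intro (fun b : {b : Idx // b.1 = n} => AG (key b.1)) _ U ⟨(n, true, 0), rfl⟩ U.top

theorem P_inj (U : Ult BB) {m n : ℕ} (h : cg U (PG m) = cg U (PG n)) : m = n := by
  by_contra hne
  rcases (mem_P U n _).1 (h ▸ (mem_P U m _).2 (Or.inl rfl)) with e | e <;>
  exact A_ne (fun e => hne (congrArg Prod.fst e)) U e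

theorem supp_fam : SS.Supp ⊤ (lst PG fun _ => ⊤) :=
  supp_lst fun g hg => ⟨Equiv.refl _, fun n => supp_P n g hg, fun _ => map_top _⟩

/-- The family of all pairs. -/
noncomputable def famG : SS.GN := lstG PG (fun _ => ⊤) ⟨⊤, SS.top, supp_fam⟩

theorem denum_fam (U : Ult BB) : IsDenum (SS.EN U) (cg U famG) := by
  have hφ : SS.Sy (lst (fun n => opG (numG n) (PG n)) fun _ => ⊤) :=
    ⟨⊤, SS.top, supp_gr fun g hg => ⟨Equiv.refl _, fun n => ⟨supp_numG n g hg, supp_P n g hg⟩⟩⟩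
  refine ⟨_, cg U (grG numG PG hφ), om_omG U, ⟨grG_dom _ _ _ omG num_mem_om U, ?_, ?_⟩,
    fun x x' y h1 h2 => ?_, ?_⟩
  · refine omG_elim (fun U x => ∃! y, Ap (SS.EN U) (cg U (grG numG PG hφ)) x y)
      (fun V n => ⟨_, ap_grG _ _ _ V n, fun y hy => ?_⟩) U
    exact grG_elim _ _ hφ (fun U a b => a = cg U (numG n) → b = cg U (PG n))
      (fun W m e => by rw [(numG_inj W).1 e]) V _ _ hy rfl
  · exact grG_elim _ _ hφ (fun U _ b => SS.EN U b (cg U famG))
      (fun V n => lst_intro PG _ V n V.top) U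
  · refine grG_elim _ _ hφ (fun U x y => ∀ x', Ap (SS.EN U) (cg U (grG numG PG hφ)) x' y → x = x')
      (fun V n x' h => ?_) U x y h1 x' h2
    exact grG_elim _ _ hφ (fun U a b => b = cg U (PG n) → cg U (numG n) = a)
      (fun W m e => by rw [P_inj W e]) V _ _ h rfl
  · exact lst_elim PG _ (fun U y => ∃ x, Ap (SS.EN U) (cg U (grG numG PG hφ)) x y)
      (fun V n _ => ⟨_, ap_grG _ _ _ V n⟩) U

theorem fam_fin (U : Ult BB) (a : SS.N U) (ha : SS.EN U a (cg U famG)) :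
    (∃ z, SS.EN U z a) ∧ IsFin (SS.EN U) a :=
  lst_elim PG _ (fun U a => (∃ z, SS.EN U z a) ∧ IsFin (SS.EN U) a)
    (fun V n _ => ⟨⟨_, (mem_P V n _).2 (Or.inl rfl)⟩,
      (SS.zf V).isFin_pair (A_ne (by simp) V) (mem_P V n)⟩) U a ha

/-- An involution moving `[0, K)` off itself. -/
def shift (K i : ℕ) : ℕ := if i < K then i + K else if i < 2 * K then i - K else i

theorem shift_shift (K i : ℕ) : shift K (shift K i) = i := by
  unfold shift; split_ifs <;> omega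

def swapF (n K : ℕ) (a : Idx) : Idx := if a.1 = n then (a.1, !a.2.1, shift K a.2.2) else a

theorem swapF_inv (n K : ℕ) : Involutive (swapF n K) := fun a => by
  by_cases h : a.1 = n <;> simp [swapF, h, shift_shift, ← Prod.ext_iff]
  rw [← h]

def swapG (n K : ℕ) : GG := ⟨(swapF_inv n K).toPerm, fun a => by
    by_cases h : a.1 = n <;> simp [swapF, h], fun a b => by
    by_cases h : a.1 = n <;> by_cases h' : b.1 = n <;> simp [swapF, h, h', key, eq_comm] <;> omega⟩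

theorem swap_compat (n : ℕ) (s : Finset ((Idx × ℕ) × Bool)) (hs : cnd s ≠ ⊥) :
    ∃ K, cnd s ⊓ SS.σ (swapG n K) (cnd s) ≠ ⊥ := by
  obtain ⟨ω, hω⟩ := ne_bot_iff.1 hs
  obtain ⟨K, hK⟩ := (s.image fun x => x.1.1.2.2).bddAbove
  have hK' : ∀ x ∈ s, x.1.1.2.2 < K + 1 := fun x hx =>
    Nat.lt_succ_of_le (hK (Finset.mem_coe.2 (Finset.mem_image_of_mem _ hx)))
  refine ⟨K + 1, ne_bot_iff.2 ⟨fun j => if j.1.2.2 < K + 1 then ω j else ω (swapF n (K + 1) j.1, j.2),
    mem_cnd.2 fun x hx => ?_, mem_hom.2 (mem_cnd.2 fun x hx => ?_)⟩⟩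
  · simp only [if_pos (hK' x hx)]
    exact mem_cnd.1 hω x hx
  · rw [← mem_cnd.1 hω x hx]
    change (if (swapF n (K + 1) x.1.1).2.2 < K + 1 then ω (swapF n (K + 1) x.1.1, x.1.2) else
      ω (swapF n (K + 1) (swapF n (K + 1) x.1.1), x.1.2)) = _
    rw [swapF_inv]
    have := hK' x hx
    by_cases h : x.1.1.1 = n
    · rw [if_neg]
      simp only [swapF, if_pos h, shift, if_pos this]
      omega
    · simp only [swapF, if_neg h, ite_self]

theorem no_choice (U : Ult BB) (f : SS.N U) :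
    ¬ Fn (SS.EN U) (cg U famG) (fun a y => SS.EN U y a) f := by
  refine sy_elim (fun U f => ¬ Fn (SS.EN U) (cg U famG) (fun a y => SS.EN U y a) f) ?_ U f
  rintro V f ⟨_, ⟨t, rfl⟩, hf⟩ hV
  obtain ⟨n, hn⟩ := (t.image fun a => a.1).exists_notMem
  obtain ⟨y, hy, -⟩ := hV.2.1 (cg V (PG n)) (lst_intro PG _ V n V.top)
  obtain ⟨ε, rfl⟩ : ∃ ε, y = cg V (AG (n, ε)) :=
    ((mem_P V n y).1 (hV.2.2 _ _ hy)).elim (fun h => ⟨_, h⟩) fun h => ⟨_, h⟩
  let b := bv (fun U => Fn (SS.EN U) (cg U famG) (fun a y => SS.EN U y a) (cg U f) ∧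
    Ap (SS.EN U) (cg U f) (cg U (PG n)) (cg U (AG (n, ε))))
  have hb : b ≠ ⊥ := fun e => V.bot (e ▸ (bv_iff _ V).2 ⟨hV, hy⟩ : V.P ⊥)
  obtain ⟨s, hs, hsb⟩ := Coh.dense b hb
  obtain ⟨K, hK⟩ := swap_compat n s hs
  obtain ⟨W, hW⟩ := Ult.exists_mem hK
  obtain ⟨W', rfl⟩ := umap_surj (SS.σ (swapG n K)) W
  rw [Ult.inf, umap_P] at hW
  have h1 := (bv_iff _ _).1 (Ult.mono _ hsb hW.1)
  have h2 := ((iso (S := SS) (swapG n K) W').ap _ _ _).2 ((bv_iff _ _).1 (Ult.mono _ hsb hW.2)).2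
  have hg : swapG n K ∈ fx t := fun a ha =>
    if_neg fun e => hn (Finset.mem_image.2 ⟨a, ha, e⟩)
  have e1 : Feq (act (S := SS) (swapG n K) (AG (n, ε))).1 (AG (n, !ε)).1 := by
    have := feq_A (swapG n K) (n, ε, 0)
    have e : key ((swapG n K).1 (n, ε, 0)) = (n, !ε) := by
      change key (swapF n K (n, ε, 0)) = _
      simp [swapF, key]
    rw [e] at this
    exact this
  rw [iso_cg, iso_cg, iso_cg, hf.cg_act hg, (supp_P n).cg_act (x := PG n) trivial,
    cg_eq.2 (e1 _)] at h2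
  exact A_ne (by simp) _ ((SS.zf _).fn_unique h1.1 h1.2 h2)

theorem main : ∃ (M : Type 1) (E : M → M → Prop),
    ZF E ∧ CompactMetrizableEmbeds E ∧ ¬ CACfin E := by
  obtain ⟨U, -⟩ := Ult.exists_mem (B := BB) (a := ⊤)
    (ne_bot_iff.2 ⟨fun _ => true, Set.mem_univ _⟩)
  refine ⟨SS.N U, SS.EN U, SS.zf U, embeds_of_coded coded U, fun h => ?_⟩
  obtain ⟨f, hf⟩ := h _ (denum_fam U) (fam_fin U)
  exact no_choice U f hf

end Pool.Agent.MP_d9473e_lc
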